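import Pool.Agent.Helper79.PN.Lem

set_option autoImplicit false

/-!
E23: edges between index 2 and index 3.
-/

open scoped Classical

namespace Pool.Agent.Helper78.PN

open Pool.Agent.Helper79.PN

/-- exactly one of two excluding properties -/
theorem e23_one {p q : Prop} (h1 : p ∨ q) (h2 : ¬ (p ∧ q)) : ind p + ind q = 1 := by
  by_cases hp : p
  · have hq : ¬ q := fun hq => h2 ⟨hp, hq⟩
    rw [ind_true hp, ind_false hq, add_zero]
  · have hq : q := h1.resolve_left hp
    rw [ind_false hp, ind_true hq, zero_add]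

theorem st_E23 : ST_E23 := by
  intro P K i hn hv hT hv3 _
  have g1 := g_gt
  have g2 := g_lt
  have gs := g_sq
  have v := w2 hn hv
  obtain ⟨v0, v0a, v0b, v0c, v0d, v0e⟩ := v i
  obtain ⟨v1, v1a, v1b, v1c, v1d, v1e⟩ := v (i + 1)
  obtain ⟨v4, v4a, v4b, v4c, v4d, v4e⟩ := v (i - 1)
  obtain ⟨v2, v2a, v2b, v2c, v2d, v2e⟩ := v (i + 2)
  obtain ⟨v3, v3a, v3b, v3c, v3d, v3e⟩ := v (i - 2)
  obtain ⟨a1, a2, a3, a4, a5⟩ := P.rel0 K i
  obtain ⟨b1, b2, b3, b4, b5⟩ := P.relg K i
  have a6 := P.rel2 K i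
  have n3 : P.n (K + e i) = 3 := by rw [P.n_add, hn]; rfl
  obtain ⟨s0, s1, s4, s2, s3⟩ := P.stp K i
  rw [inv3 n3] at hv3
  have c2 := hv3 (i + 2)
  have c3 := hv3 (i - 2)
  rw [s2] at c2
  rw [s3] at c3
  rw [isT_2 hn] at hT
  have ns := fun j => nsb (P := P) hn j
  have nX : P.n (K - e (i + 2)) = 1 := by rw [P.n_sub, hn]; rfl
  have nZ : P.n (K - e (i - 2)) = 1 := by rw [P.n_sub, hn]; rfl
  obtain ⟨p0, p1, p4, p2, p3⟩ := P.stp2 K i
  obtain ⟨q0, q1, q4, q2, q3⟩ := P.stp3 K i
  have x0 : P.h (K - e (i + 2)) i = P.h K i + g / 2 := by rw [P.h_sub_add, p0]; ring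
  have x1 : P.h (K - e (i + 2)) (i + 1) = P.h K (i + 1) - (g - 1) / 2 := by
    rw [P.h_sub_add, p1]; ring
  have x4 : P.h (K - e (i + 2)) (i - 1) = P.h K (i - 1) + g / 2 := by rw [P.h_sub_add, p4]; ring
  have x2 : P.h (K - e (i + 2)) (i + 2) = P.h K (i + 2) - 1 := by rw [P.h_sub_add, p2]; ring
  have x3 : P.h (K - e (i + 2)) (i - 2) = P.h K (i - 2) - (g - 1) / 2 := by
    rw [P.h_sub_add, p3]; ring
  have z0 : P.h (K - e (i - 2)) i = P.h K i + g / 2 := by rw [P.h_sub_add, q0]; ring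
  have z1 : P.h (K - e (i - 2)) (i + 1) = P.h K (i + 1) + g / 2 := by rw [P.h_sub_add, q1]; ring
  have z4 : P.h (K - e (i - 2)) (i - 1) = P.h K (i - 1) - (g - 1) / 2 := by
    rw [P.h_sub_add, q4]; ring
  have z2 : P.h (K - e (i - 2)) (i + 2) = P.h K (i + 2) - (g - 1) / 2 := by
    rw [P.h_sub_add, q2]; ring
  have z3 : P.h (K - e (i - 2)) (i - 2) = P.h K (i - 2) - 1 := by rw [P.h_sub_add, q3]; ring
  by_cases hi : P.h K i < -1 / 2
  · have hgi : g * P.h K i < -g / 2 := by
      have := (gm hi).1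
      linarith
    have d1 : -1 / 2 < P.h K (i + 1) := by
      by_contra hc
      refine hT ⟨i - 2, hn, hv, ?_, ?_⟩
      · rw [m2p2]; exact hi
      · rw [m2m2]; exact lt_of_le_of_ne (not_lt.1 hc) (ns (i + 1))
    have d4 : -1 / 2 < P.h K (i - 1) := by
      by_contra hc
      refine hT ⟨i + 2, hn, hv, ?_, ?_⟩
      · rw [p2p2]; exact lt_of_le_of_ne (not_lt.1 hc) (ns (i - 1))
      · rw [p2m2]; exact hi
    have d2 : (2 - g) / 2 < P.h K (i + 2) := by
      have h1 : (g - 1) / 2 < g * P.h K (i + 2) := by linarith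
      have h2 := (gm h1).2
      have h3 : (g - 1) * (g * P.h K (i + 2)) = P.h K (i + 2) := by
        linear_combination (P.h K (i + 2)) * gs
      have h4 : (g - 1) * ((g - 1) / 2) = (2 - g) / 2 := by linear_combination (1 / 2) * gs
      linarith
    have d3 : (2 - g) / 2 < P.h K (i - 2) := by
      have h1 : (g - 1) / 2 < g * P.h K (i - 2) := by linarith
      have h2 := (gm h1).2
      have h3 : (g - 1) * (g * P.h K (i - 2)) = P.h K (i - 2) := by
        linear_combination (P.h K (i - 2)) * gs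
      have h4 : (g - 1) * ((g - 1) / 2) = (2 - g) / 2 := by linear_combination (1 / 2) * gs
      linarith
    have hVX : InV P (K - e (i + 2)) := by
      rw [inv1 nX]
      refine all5 i ?_ ?_ ?_ ?_ ?_
      · rw [x0]; linarith
      · rw [x1]; linarith
      · rw [x4]; linarith
      · rw [x2]; linarith
      · rw [x3]; linarith
    have hVZ : InV P (K - e (i - 2)) := by
      rw [inv1 nZ]
      refine all5 i ?_ ?_ ?_ ?_ ?_
      · rw [z0]; linarith
      · rw [z1]; linarith
      · rw [z4]; linarith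
      · rw [z2]; linarith
      · rw [z3]; linarith
    constructor
    · rw [ind_true hi]
      refine e23_one ?_ ?_
      · rcases lt_or_gt_of_ne (nsd (P := P) hn (i - 2)) with h | h
        · left
          refine ⟨nX, hVX, ?_, ?_, ?_⟩
          · rw [x4]; linarith
          · rw [m1p1, x0]; linarith
          · rw [m1m1, x3]; linarith
        · right
          refine ⟨nX, hVX, ?_, ?_⟩
          · rw [p1p2, x3]; linarith
          · rw [p1m2, x4]; linarith
      · rintro ⟨⟨-, -, -, -, h1⟩, ⟨-, -, h2, -⟩⟩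
        rw [m1m1] at h1
        rw [p1p2] at h2
        linarith
    · rw [ind_true hi]
      refine e23_one ?_ ?_
      · rcases lt_or_gt_of_ne (nsd (P := P) hn (i + 2)) with h | h
        · left
          refine ⟨nZ, hVZ, ?_, ?_, ?_⟩
          · rw [z1]; linarith
          · rw [p1p1, z2]; linarith
          · rw [p1m1, z0]; linarith
        · right
          refine ⟨nZ, hVZ, ?_, ?_⟩
          · rw [m1p2, z1]; linarith
          · rw [m1m2, z2]; linarith
      · rintro ⟨⟨-, -, -, h1, -⟩, ⟨-, -, -, h2⟩⟩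
        rw [p1p1] at h1
        rw [m1m2] at h2
        linarith
  · have hi' : -1 / 2 < P.h K i := lt_of_le_of_ne (not_lt.1 hi) (Ne.symm (ns i))
    rw [ind_false hi]
    constructor
    · rw [ind_false, ind_false, add_zero]
      · rintro ⟨-, hV, h1, h2⟩
        rw [p1p2] at h1
        rw [p1m2] at h2
        obtain ⟨-, -, -, -, -, hw⟩ := w1 nX hV (i - 1)
        obtain ⟨-, -, r3, -, -⟩ := P.rel0 (K - e (i + 2)) i
        rw [x0] at r3
        linarith
      · rintro ⟨-, -, -, h1, -⟩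
        rw [m1p1, x0] at h1
        linarith
    · rw [ind_false, ind_false, add_zero]
      · rintro ⟨-, hV, h1, h2⟩
        rw [m1p2] at h1
        rw [m1m2] at h2
        obtain ⟨-, -, -, -, -, hw⟩ := w1 nZ hV (i + 1)
        obtain ⟨-, r2, -, -, -⟩ := P.rel0 (K - e (i - 2)) i
        rw [z0] at r2
        linarith
      · rintro ⟨-, -, -, -, h1⟩
        rw [p1m1, z0] at h1
        linarith

end Pool.Agent.Helper78.PN
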